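import Pool.Agent.TH639.SN.All

/-!
The surfaces `y ^ N = Φ(t, x)` over number fields, `N` a prime power, whose branch curve has one point
at infinity: a criterion at one place for the Tate conjecture over all finite extensions.
-/

set_option autoImplicit false
set_option maxHeartbeats 1000000

open Polynomial

namespace Pool.Agent.Results.MP_97f789_ag.AllFiniteExtensions

open Pool.Agent.TH639.SN

section defs

variable {k : Type} [Field k]

/-- With the variables `t` of index `0` and `x` of index `1`: the polynomial is
`F = x ^ n + c t ^ d + ...` with `c ≠ 0` and the other monomials `t ^ i x ^ j` satisfy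
`n i + d j < n d`, where `n` and `d` are coprime and prime to the characteristic and `n` is prime to
`ℓ`; the affine curve `F = 0` is smooth. It is absolutely irreducible, has one point at infinity and
genus `(n - 1) (d - 1) / 2`. -/
structure IsBranch (ℓ n d : ℕ) (F : MvPolynomial (Fin 2) k) : Prop where
  coprime : n.Coprime d
  prime_to : ¬ ℓ ∣ n
  n_ne_zero : (n : k) ≠ 0
  d_ne_zero : (d : k) ≠ 0
  coeff_x : F.coeff (Finsupp.single 1 n) = 1
  coeff_t : F.coeff (Finsupp.single 0 d) ≠ 0
  weight : ∀ e, F.coeff e ≠ 0 → e ≠ Finsupp.single 1 n → e ≠ Finsupp.single 0 d →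
    n * e 0 + d * e 1 < n * d
  smooth : Ideal.span (insert F (Set.range fun i => MvPolynomial.pderiv i F)) = ⊤

/-- The zeta function of the affine curve `F = 0` is `L(T) / (1 - q T)`: `L` is the numerator of the
zeta function `L(T) / ((1 - T) (1 - q T))` of the smooth projective curve. -/
def IsNumerator (F : MvPolynomial (Fin 2) k) (L : ℤ[X]) : Prop :=
  zetaInv 2 F * (L : PowerSeries ℤ) =
    ((1 - C (Nat.card k : ℤ) * X : ℤ[X]) : PowerSeries ℤ)

/-- For all natural numbers `s` prime to `ℓ` such that Euler's function `φ(s)` is at most the degree of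
`L`, the polynomials `L` and `T ^ s - 1` are coprime modulo `ℓ`; that is, the product of the `L(η)`,
`η ^ s = 1`, is prime to `ℓ`. For the numerator of the zeta function of a curve this product is the
number of points of the Jacobian over the extension of degree `s`. -/
def PrimeToPoints (ℓ : ℕ) (L : ℤ[X]) : Prop :=
  ∀ s : ℕ, 0 < s → ¬ ℓ ∣ s → s.totient ≤ L.natDegree →
    IsCoprime (L.map (Int.castRingHom (ZMod ℓ))) (X ^ s - 1)

/-- The polynomial `det(1 - T φ)` of the endomorphism `φ`, which is the reverse of its characteristic
polynomial, is the product over the characters `χ ^ j`, `0 < j < N`, of the products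
`charProduct (χ ^ j) 2 F` over the closed points of the affine plane, which are polynomials of degree
at most `D`. The values of `χ` are in the ring of the elements of `E` which are integral over the
integers. -/
def IsFrobenius {E V : Type} [Field E] [AddCommGroup V] [Module E V] [FiniteDimensional E V]
    (χ : MulChar k (integralClosure ℤ E)) (N : ℕ) (F : MvPolynomial (Fin 2) k) (D : ℕ)
    (φ : Module.End E V) : Prop :=
  ∃ P : ℕ → E[X], (∀ j ∈ Finset.Ico 1 N, (P j).natDegree ≤ D ∧
    PowerSeries.map (algebraMap (integralClosure ℤ E) E) (charProduct (χ ^ j) 2 F) = P j) ∧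
    φ.charpoly.reverse = ∏ j ∈ Finset.Ico 1 N, P j

theorem dvd_card {A : Type} [CommRing A] [Finite k] {ℓ a : ℕ} (ha : a ≠ 0) {χ : MulChar k A}
    (hχ : orderOf χ = ℓ ^ a) : ℓ ∣ Nat.card k - 1 := by
  have h1 : χ ^ (Nat.card k - 1) = 1 := by
    have hk1 : 1 < Nat.card k := Finite.one_lt_card
    apply MulChar.ext
    intro a
    have := Fintype.ofFinite k
    rw [MulChar.pow_apply' χ (by omega), MulChar.one_apply a.isUnit, ← map_pow,
      Nat.card_eq_fintype_card, FiniteField.pow_card_sub_one_eq_one _ a.ne_zero, map_one]
  have h2 := orderOf_dvd_of_pow_eq_one h1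
  rw [hχ] at h2
  exact (dvd_pow_self ℓ ha).trans h2

end defs

/-- **One place decides the Tate conjecture over all finite extensions.**

Let `ℓ` be a prime, `N = ℓ ^ a > 1`, `K` a number field, and `X` a smooth projective surface over `K`
which contains the smooth affine surface `U : y ^ N = Φ(t, x)` as an open subset, where `Φ` is a
polynomial over `K` with the shape of `IsBranch`. Suppose that there is a place of `K` with residue field `k` with `q`
elements, where `N` divides `q - 1`, at which `Φ` is integral and has a reduction `F` as in `IsBranch`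
with the same `n` and `d`. Let `B` be the smooth projective curve over `k` belonging to `F = 0`, of genus
`g = (n - 1) (d - 1) / 2`, and `L` the numerator of its zeta function, of degree `2 g`.

Let `G` be the absolute Galois group of `K`, let `E` be an algebraic closure of a field of `λ`-adic
numbers, for a prime `λ` which is not the characteristic of `k`, and `V` the second cohomology with
compact support of `U` over an algebraic closure of `K` with coefficients in `E`. The second cohomology
of `X` is the direct sum of `V` and of the span of the classes of the curves outside `U`. In the weighted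
projective plane the branch divisor and the line at infinity have normal crossings relative to the
ring of integers at the place, so `V` is unramified there and the Frobenius element `φ` acts on it as
on the direct sum of the spaces `V_j`, `0 < j < N`, the second cohomology with compact support of the
affine plane over an algebraic closure of `k` with coefficients in the Kummer sheaf of `χ ^ j` for `F`.
They have the dimension `2 g`, are pure of weight two (there are no invariants of the inertia group at
`t = ∞`), and `charProduct (χ ^ j) 2 F` is the polynomial `det(1 - T φ)` on `V_j`; so `IsFrobenius`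
holds. Let `ε` be the inverse of the cyclotomic character, so `ε φ = q`.

Theorem. Suppose that `ℓ` does not divide the number of points of the Jacobian of `B` over the extension
of `k` of degree `s`, for all `s` prime to `ℓ` with `φ(s) ≤ 2 g` (finitely many `s`). Then for every
subgroup `H` of `G` of finite index no vector of `V` different from zero is multiplied by `ε` under
`H`.

Consequences. The map `C^1` of the question is an isomorphism for `X` over all finite extensions `K'`
of `K`: all Tate classes come from the curves outside `U`, and these generate the Neron-Severi group of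
`X` over the algebraic closure up to a finite index. The Jacobian of the curve `y ^ N = Φ(t, x)`
over `K(t)` has only finitely many points over `\bar K(t)` (there is no constant part, because the
first cohomology of `X` is zero). The criteria `ℓ` not dividing `L(1)` of
`MP_4776b1_ag.OneGoodPlace` and `MP_8ac872_ag.BranchCurveClassNumber` concern only extensions of
`ℓ`-power residue degree; here there is no condition on the extension. For `ℓ = 3` and `g = 3`, for
instance, the assumption is that all the zeros of `L` modulo `3` have the orders `13`, `26` or `28`. -/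
theorem result (ℓ : ℕ) (hℓ : ℓ.Prime) (a : ℕ) (ha : a ≠ 0) (k : Type) [Field k] [Finite k]
    (E : Type) [Field E] [CharZero E] [IsAlgClosed E] (χ : MulChar k (integralClosure ℤ E))
    (hχ : orderOf χ = ℓ ^ a) (n d : ℕ) (F : MvPolynomial (Fin 2) k) (_hF : IsBranch ℓ n d F)
    (L : ℤ[X]) (hL : IsNumerator F L) (hpts : PrimeToPoints ℓ L) (G V : Type) [Group G]
    [AddCommGroup V] [Module E V] [FiniteDimensional E V] (ρ : Representation E G V) (φ : G)
    (hφ : IsFrobenius χ (ℓ ^ a) F L.natDegree (ρ φ)) (ε : G →* E) (hε : ε φ = (Nat.card k : E))
    (H : Subgroup G) (hH : H.FiniteIndex) (v : V) (hv : ∀ g ∈ H, ρ g v = ε g • v) : v = 0 := by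
  obtain ⟨s, hs, -, hsH⟩ := Subgroup.exists_pow_mem_of_index_ne_zero hH.index_ne_zero φ
  have hN : ℓ ^ a ≠ 0 := pow_ne_zero a hℓ.ne_zero
  obtain ⟨ω, hω⟩ : ∃ ω : E, IsPrimitiveRoot ω (ℓ ^ a) := by
    have : NeZero (ℓ ^ a) := ⟨hN⟩
    have : NeZero ((ℓ ^ a : ℕ) : E) := ⟨by exact_mod_cast hN⟩
    exact HasEnoughRootsOfUnity.exists_primitiveRoot E (ℓ ^ a)
  obtain ⟨P, hP, hPr⟩ := hφ
  have hk0 : (Nat.card k : E) ≠ 0 := by
    have : 0 < Nat.card k := Nat.card_pos
    exact_mod_cast this.ne'
  by_contra hv0
  have hu := not_unit_of_vec (T := (ρ φ) ^ s) (β := (Nat.card k : E) ^ s) hv0 (by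
    rw [← map_pow, hv _ hsH, map_pow, hε])
  obtain ⟨α, hα, h0⟩ := exists_eigenvalue hs hu
  have hα0 : α ≠ 0 := by
    rintro rfl
    rw [zero_pow hs.ne'] at hα
    exact pow_ne_zero _ hk0 hα.symm
  have h1 : (ρ φ).charpoly.reverse.eval α⁻¹ = 0 := by
    let _ := invertibleOfNonzero hα0
    have h2 := (Polynomial.eval₂_reverse_eq_zero_iff (RingHom.id E) α (ρ φ).charpoly).2
      (by rw [Polynomial.eval₂_id]; exact h0)
    rwa [invOf_eq_inv, Polynomial.eval₂_id] at h2
  rw [hPr, Polynomial.eval_prod, Finset.prod_eq_zero_iff] at h1
  obtain ⟨j, hj, h1⟩ := h1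
  have hχj : (χ ^ j) ^ (ℓ ^ a) = 1 := by
    rw [← pow_mul, mul_comm, pow_mul, ← hχ, pow_orderOf_eq_one, one_pow]
  have hL' : zetaInv 2 F * (L : PowerSeries ℤ) =
      ((1 - Polynomial.C ((Nat.card k : ℤ) ^ 1) * Polynomial.X : Polynomial ℤ) :
        PowerSeries ℤ) := by
    rw [pow_one]
    exact hL
  exact no_eigenvalue_all hℓ (dvd_card ha hχ) (χ ^ j) hχj hω F hL' hpts (hP j hj).2
    (hP j hj).1 (c := 1) hs (by rw [one_mul]; exact hα) h1

end Pool.Agent.Results.MP_97f789_ag.AllFiniteExtensions
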