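import Pool.Agent.TH943.TP.Nf

/-!
The codimension-one Tate conjecture for the surfaces `v ^ (p ^ s) = (x - h(t)) ^ b f(x) ^ c` over number
fields over which the Galois group of `f(h(t))` contains a full cycle.
-/

set_option autoImplicit false
set_option maxHeartbeats 1000000

open Polynomial

namespace Pool.Agent.Results.MP_97f789_ag.FullCycleSurfaces

section reduction

variable {κ : Type} [Field κ]

/-- The value of the function `(x - h(t)) ^ b f(x) ^ c` at the point `(t, x) = (y 0, y 1)` of the affine
plane over `L`. -/
noncomputable def value (L : Type) [Field L] [Algebra κ L] (f h : κ[X]) (b c : ℕ)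
    (y : Fin 2 → L) : L :=
  (y 1 - aeval (y 0) h) ^ b * (aeval (y 1) f) ^ c

/-- The number of points over `L` of the open set `U` of the plane where the function is not
zero. -/
noncomputable def openCount (L : Type) [Field L] [Algebra κ L] (f h : κ[X]) (b c : ℕ) : ℕ :=
  Set.ncard {y : Fin 2 → L | value L f h b c y ≠ 0}

/-- The number of points over `L` of `U` where the power of the function with exponent
`(|L| - 1) / N` is `z ^ i`. -/
noncomputable def fixCount (L : Type) [Field L] [Fintype L] [Algebra κ L] (f h : κ[X])
    (b c N : ℕ) (z : κ) (i : ℕ) : ℕ :=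
  Set.ncard {y : Fin 2 → L | value L f h b c y ≠ 0 ∧
    (value L f h b c y) ^ ((Fintype.card L - 1) / N) = algebraMap κ L z ^ i}

/-- The polynomial `f(h(t))` is irreducible of degree not divisible by `p`, and the exponents are not
divisible by `p`. -/
structure IsAdmissible (p : ℕ) (f h : κ[X]) (b c : ℕ) : Prop where
  irreducible : Irreducible (f.comp h)
  degree : ¬ p ∣ f.natDegree * h.natDegree
  exponentH : ¬ p ∣ b
  exponentF : ¬ p ∣ c

/-- `M` is the sum of the `H²_c(U, L_χ)` over the nontrivial characters `χ` of order dividing
`p ^ s`: the part of the cohomology with compact supports of the covering `v ^ (p ^ s) = value` of `U`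
without invariants of the covering group, with the Frobenius `ΦM` and the automorphism `g` of order
`p ^ s`. -/
structure IsOpenPart (p s : ℕ) (z : κ) (f h : κ[X]) (b c : ℕ) {E M : Type}
    [Field E] [AddCommGroup M] [Module E M] (ΦM g : Module.End E M) : Prop where
  commute : Commute ΦM g
  order : g ^ p ^ s = 1
  noInvariants : ∀ v, g v = v → v = 0
  /-- the covering has `p ^ s fixCount` fixed points of the composition of the Frobenius over `L` and
  `g ^ i`, and `openCount` is the contribution of the trivial character -/
  lefschetz : ∀ (L : Type) [Field L] [Fintype L] [Algebra κ L] (i : ℕ),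
    LinearMap.trace E M (ΦM ^ Module.finrank κ L * g ^ i) =
      (p : E) ^ s * (fixCount L f h b c (p ^ s) z i : E) - (openCount L f h b c : E)
  /-- the dimension of `H²_c(U, L_χ)` is the Euler characteristic of `U` -/
  dimension : ∀ ω : E, ω ≠ 1 → ω ^ p ^ s = 1 → Module.finrank E (g.eigenspace ω) +
    f.natDegree = f.natDegree * h.natDegree

theorem value_eq (L : Type) [Field L] [Algebra κ L] (f h : κ[X]) (b c : ℕ)
    (y : Fin 2 → L) : Pool.Agent.TH943.IP.GG L (fun _ : Fin 1 => h) f (fun _ => b) c y =
      value L f h b c y := by
  unfold Pool.Agent.TH943.IP.GG value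
  rw [Fin.prod_univ_one]
  have e1 : (Fin.last 1 : Fin 2) = 1 := rfl
  have e2 : (0 : Fin 1).succ = 1 := rfl
  have e3 : (0 : Fin 1).castSucc = 0 := rfl
  rw [e1, e2, e3]
  ring

end reduction

section numberField

variable {K : Type} [Field K]

/-- `V` is the second cohomology of the surface with twist one, with the action `ρ` of the Galois group of
`K`; it is the direct sum of the image of `M` under the specialization isomorphism and the map
from the cohomology with compact supports, and of the span `N` of the classes of the boundary curves
and of the classes invariant under the covering group. The element `φ` is a geometric Frobenius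
element at the place, `q` the number of elements of the residue field. -/
structure IsSecondCohomology (q : ℕ) {E M V : Type} [Field E] [AddCommGroup M] [Module E M]
    [AddCommGroup V] [Module E V] (ΦM : Module.End E M)
    (ρ : Representation E Gal(AlgebraicClosure K/K) V) (φ : Gal(AlgebraicClosure K/K))
    (π : M →ₗ[E] V) (N : Submodule E V) : Prop where
  injective : Function.Injective π
  frobenius : ∀ x, π (ΦM x) = (q : E) • ρ φ (π x)
  stableM : ∀ σ, ∀ w ∈ LinearMap.range π, ρ σ w ∈ LinearMap.range π
  stableN : ∀ σ, ∀ w ∈ N, ρ σ w ∈ N
  decomposition : IsCompl (LinearMap.range π) N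

/-- The extension `K'` has a place over the given one of residue degree `r`: a Frobenius element `ψ`
of this place acts on the unramified representation in the image of `M` as a conjugate of
`φ ^ r`. -/
def HasPlace {E M V : Type} [Field E] [AddCommGroup M] [Module E M] [AddCommGroup V] [Module E V]
    (ρ : Representation E Gal(AlgebraicClosure K/K) V) (φ : Gal(AlgebraicClosure K/K))
    (π : M →ₗ[E] V) (K' : IntermediateField K (AlgebraicClosure K)) (r : ℕ) : Prop :=
  ∃ σ : Gal(AlgebraicClosure K/K), ∃ ψ ∈ K'.fixingSubgroup,
    ∀ w ∈ LinearMap.range π, ρ ψ w = ρ (σ * φ ^ r * σ⁻¹) w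

end numberField

/-- **The codimension-one Tate conjecture for surfaces over number fields with a full cycle.**

Let `p` be a prime, `K` a number field, and `S` a smooth projective surface over `K` birational to
`v ^ (p ^ s) = (x - h(t)) ^ b f(x) ^ c`, `s ≥ 1`, where `f(h(t))` is of degree not divisible by `p`,
`n = deg f`, `m = deg h`, and `b`, `c` are positive integers prime to `p`. Let there be a finite place of
`K`, with residue field `κ` with `q ≡ 1` modulo `p ^ s` elements, where `f` and `h` are integral with
reductions of the same degrees, and the reduction of `f(h(t))` is irreducible over `κ`. By Chebotarev's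
theorem there are such places, infinitely many, if and only if the Galois group of `f(h(t))` over
`K(ζ)`, `ζ` a primitive root of unity of order `p ^ s`, contains a cycle of length `n m`; this is so for
almost all `f` and `h` of given degrees, and then for all finite extensions of `K` linearly
disjoint from the splitting field of `f(h(t))` over `K(ζ)`.

Let `f`, `h` denote the reductions, and `U` the open set `(x - h(t)) f(x) ≠ 0` of the plane over the
integers of the place, `U'` its covering. The divisor `(x - h(t)) f(x) = 0` has normal crossings relative
to the integers, because the reduction of `f(h(t))` is separable, and the curve `x = h(t)` is smooth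
and can be separated from infinity by `m` blowing ups in a way uniform over the integers; so
the `H²_c(U, L_χ)` over the algebraic closures of `K` and of `κ` are isomorphic (specialization), and
unramified. For the nontrivial characters `χ` of order dividing `p ^ s` the groups `H^i_c(U, L_χ)` are
zero for `i ≠ 2`: for `i < 2`, as `U` is affine and smooth; for `i > 2` one integrates first over `t`;
there are no coinvariants on the fibres, and the local monodromy of the direct image at the zeros of
`f` is a scalar different from one. So `IsOpenPart` holds for the sum `M` of the `H²_c(U, L_χ)`, by the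
Grothendieck-Lefschetz formula. Let `V` be `H²(S)` over the algebraic closure of `K`, with twist one
and with coefficients in an algebraic closure `E` of the field of `ℓ`-adic numbers, `ℓ` prime to `q`.
After blowing up we may suppose that `U'` is open in `S` and that the covering group acts. As
`H²_c(U, L_χ)` is also `H²(U, L_χ)`, the image of `M` in `V` has as complement the span `N` of the
classes of the boundary curves and of the classes invariant under the covering group, which are
those of a rational surface; `N` is spanned by classes of divisors over the algebraic closure. So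
`IsSecondCohomology` holds.

Theorem: let `K'` be a finite extension of `K` with a place of residue degree `r ≥ 1` prime to `m` over
the given one. Then all elements of `V` invariant under the Galois group of `K'` lie in `N`.

Consequence: `V^(Gal(K'))` is the space of invariants of `N`, which is spanned by classes of
divisors over `K'` (averaging over the orbits), so the map `C^1` is an isomorphism for `S` over `K'`,
for every prime `ℓ` prime to `q`; and for every prime `ℓ` if the Galois group of `f(h(t))` over
`K'(ζ)` contains a full cycle. The geometric genus of `S` is not bounded. -/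
theorem result (p s : ℕ) (hp : p.Prime) (hs : 1 ≤ s) (κ : Type) [Field κ] [Fintype κ] (z : κ)
    (hz : IsPrimitiveRoot z (p ^ s)) (f h : κ[X]) (b c : ℕ) (hadm : IsAdmissible p f h b c)
    (K : Type) [Field K] [NumberField K] (E M V : Type) [Field E] [CharZero E] [IsAlgClosed E]
    [AddCommGroup M] [Module E M] [FiniteDimensional E M] [AddCommGroup V] [Module E V]
    (ΦM g : Module.End E M) (hM : IsOpenPart p s z f h b c ΦM g)
    (ρ : Representation E Gal(AlgebraicClosure K/K) V) (φ : Gal(AlgebraicClosure K/K))
    (π : M →ₗ[E] V) (N : Submodule E V) (hV : IsSecondCohomology (Fintype.card κ) ΦM ρ φ π N)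
    (K' : IntermediateField K (AlgebraicClosure K)) (r : ℕ)
    (hr : Nat.Coprime h.natDegree r) (hK' : HasPlace ρ φ π K' r)
    (v : V) (hv : ∀ σ ∈ K'.fixingSubgroup, ρ σ v = v) : v ∈ N := by
  have hcmp : Pool.Agent.TH943.IP.cmp 1 (fun _ : Fin 1 => h) f = f.comp h := rfl
  have hcmp0 : Pool.Agent.TH943.IP.cmp 0 (fun i : Fin 0 => h) f = f := rfl
  have hq0 : (Fintype.card κ : E) ≠ 0 := by exact_mod_cast Fintype.card_ne_zero
  -- the eigenvalues
  obtain ⟨-, heig⟩ := Pool.Agent.TH943.TP.eig_main hp hs κ hz (r := 0) (fun _ : Fin 1 => h) f
    (b := fun _ => b) (c := c)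
    (fun _ h0 => hadm.exponentH (by rw [h0]; exact dvd_zero p))
    (fun h0 => hadm.exponentF (by rw [h0]; exact dvd_zero p))
    (by rw [hcmp]; exact hadm.irreducible)
    (by rw [hcmp, natDegree_comp]; exact hadm.degree) ΦM g hM.commute hM.order hM.noInvariants
    (by
      intro L _ _ _ i
      simp only [value_eq]
      have h1 := hM.lefschetz L i
      unfold fixCount openCount at h1
      rw [← h1]
      norm_num)
    (by
      intro ω hω1 hω
      have h1 := hM.dimension ω hω1 hω
      rw [hcmp, natDegree_comp]
      exact h1)
  rw [hcmp, natDegree_comp] at heig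
  have hno : ∀ x : M, (ΦM ^ r) x = (Fintype.card κ : E) ^ r • x → x = 0 := fun x hx =>
    Pool.Agent.TH943.TP.no_tate hp (q := Fintype.card κ)
      (fun k _ _ => Pool.Agent.W528.HS.card_eq_one hp hs hz k) (K := f.natDegree)
      (m := h.natDegree) ΦM heig hr hx
  -- the decomposition
  obtain ⟨w, hw, y, hy, hwy⟩ := Submodule.mem_sup.1
    (hV.decomposition.sup_eq_top ▸ Submodule.mem_top : v ∈ LinearMap.range π ⊔ N)
  obtain ⟨σ, ψ, hψ, hconj⟩ := hK'
  have h1 : ρ ψ w = w := by
    have h2 := hv ψ hψ
    rw [← hwy, map_add] at h2
    have h3 : ρ ψ w - w = y - ρ ψ y := by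
      rw [sub_eq_sub_iff_add_eq_add, h2, add_comm]
    have h4 : ρ ψ w - w ∈ LinearMap.range π ⊓ N := by
      refine Submodule.mem_inf.2 ⟨Submodule.sub_mem _ (hV.stableM ψ w hw) hw, ?_⟩
      rw [h3]
      exact Submodule.sub_mem _ hy (hV.stableN ψ y hy)
    rw [hV.decomposition.inf_eq_bot, Submodule.mem_bot, sub_eq_zero] at h4
    exact h4
  rw [hconj w hw] at h1
  -- the conjugate vector
  have h2 : ρ (φ ^ r) (ρ σ⁻¹ w) = ρ σ⁻¹ w := by
    have h3 := congrArg (ρ σ⁻¹) h1
    rw [← Module.End.mul_apply, ← map_mul] at h3
    rw [← Module.End.mul_apply, ← map_mul, ← h3]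
    congr 2
    group
  obtain ⟨x, hx⟩ := LinearMap.mem_range.1 (hV.stableM σ⁻¹ w hw)
  rw [← hx] at h2
  have h3 : ∀ l : ℕ, π ((ΦM ^ l) x) = (Fintype.card κ : E) ^ l • ρ (φ ^ l) (π x) := by
    intro l
    induction l with
    | zero => rw [pow_zero, pow_zero, pow_zero, one_smul, map_one, Module.End.one_apply,
        Module.End.one_apply]
    | succ l ih =>
      rw [pow_succ', Module.End.mul_apply, hV.frobenius, ih, map_smul, smul_smul, ← pow_succ',
        ← Module.End.mul_apply, ← map_mul, ← pow_succ']
  have h4 : x = 0 := by
    apply hno
    apply hV.injective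
    rw [h3, h2, map_smul]
  rw [h4, map_zero] at hx
  have h5 : w = 0 := by
    have h6 := congrArg (ρ σ) hx
    rw [map_zero, ← Module.End.mul_apply, ← map_mul, mul_inv_cancel, map_one,
      Module.End.one_apply] at h6
    exact h6.symm
  rw [← hwy, h5, zero_add]
  exact hy

end Pool.Agent.Results.MP_97f789_ag.FullCycleSurfaces
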