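import Mathlib
import Pool.Agent.TH115.GD.Defs
import Pool.Agent.TH115.TC.TwMain

/-!
# The Tate conjecture at 2 for quadratic twists by polynomials

Let `k` be a field of characteristic different from 2 (for example a number field), `k'` a
separable closure of `k`, `K = k(t)`, `F = k'(t)`. Let

`g = x³ + b₂ x² + b₁ x + b₀`

be a polynomial over `k` whose derivative is not zero, and let `h` be either `t` or the composite of
quadratic polynomials `a₁ t² + c₁`, ..., `aₙ t² + cₙ` over `k`. Suppose that for every (finite)
critical value `γ` of `h` the cubic polynomial `g + γ` is irreducible and separable (there is no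
condition when `h = t`). Let `D` be a squarefree polynomial over `k` such that `g(x) + h(t)` has no
root modulo any irreducible factor of `D`. Let `X` be the elliptic surface over the projective line
with the generic fibre

`E_D : D(t) y² = g(x) + h(t)`,

that is, `y² = x³ + b₂ D x² + b₁ D² x + D³ (b₀ + h)`.

Theorem. Every class in `V₂ Sel(E_D / F)` which is fixed by the Galois group of `k` comes from
`E_D(K)`.

As `Br(X ⊗ k') = Ш(E_D / F)` up to `p`-torsion (Grothendieck), this is the Tate conjecture for
divisors on `X` at the prime 2. For example, let `D = (t - c₁) ... (t - c_d)`, with different `c_i`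
for which the polynomials `g(x) + h(c_i)` are irreducible over `k`; over a number field this holds
for all `c_i` outside of a thin set. The surface `X` has fibres of type `I₀*` at the roots of `D`,
and its geometric genus tends to infinity with the degree of `D` (or of `h`); the curve `E_D` has no
points of order two over `F`.

The proof: the classes of order two are given by elements of the field `N = k(C)` of the
trigonal curve `C : g(x) + h(t) = 0`, modulo squares. Over `k'` there are three places of `C` over
each root of `D`, and the valuations of such an element at these places can be odd. But the class is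
fixed by the Galois group of `k`, the three places are conjugate, and the norm of the element is a
square. So the valuations are even, and the elements are those of a descent in the tower of
quadratic coverings of the `x`-line, where there are only constants.
-/

namespace Pool.Agent.Results.MP_97f789_ag.TateInertTwists

open Polynomial Pool.Agent.TH115.GD

/-- `cb b₂ b₁ b₀` is `g`, `cq l` is the composite `h` of the quadratic polynomials `a X ^ 2 + c`,
`(a, c) ∈ l` (`cq [] = X`), and `crit l` the list of its critical values; `twC` is the curve
`E_D`. -/
theorem result {k k' K F : Type} [Field k] [Field k'] [Algebra k k'] [Field K] [Algebra k[X] K]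
    [Field F] [Algebra k'[X] F] [IsFractionRing k'[X] F] [Algebra K F] (hT : IsTower k k' K F)
    (h2 : (2 : k) ≠ 0) {b₂ b₁ b₀ : k} (hg : derivative (cb b₂ b₁ b₀) ≠ 0) {l : List (k × k)}
    (hl : ∀ p ∈ l, p.1 ≠ 0)
    (hgood : ∀ γ ∈ crit l, Irreducible (cb b₂ b₁ b₀ + C γ) ∧ (cb b₂ b₁ b₀ + C γ).Separable)
    {D : k[X]} (hD : Squarefree D)
    (hin : ∀ π : k[X], Irreducible π → π ∣ D → ∀ u : k[X],
      ¬ π ∣ (cb b₂ b₁ b₀).comp u + cq l) :
    TateAtTwo (F := F) k' (twC K b₂ b₁ b₀ (cq l) D) :=
  tw_tate hT h2 hg hl hgood hD hin

end Pool.Agent.Results.MP_97f789_ag.TateInertTwists
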