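import Mathlib
import Pool.Agent.TH115.GD.Defs
import Pool.Agent.TH115.GD.Rk2

/-!
# The Tate conjecture at 2 for elliptic surfaces with three irreducible discriminant factors

Let `k` be a field of characteristic different from 2 (for example a number field), `k'` a separable
closure, `K = k(t)`, `F = k'(t)`. Let `c`, `e` be constants such that `c e` is a nonzero square,
`e ≠ 1`, and `g` a polynomial of odd degree such that

`g`, `c - g`, `c - e g`

are irreducible and separable. Let `X` be the elliptic surface over the projective line with the
generic fibre

`E : y² = x (x - c + g) (x - c + e g)`.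

It has `3 deg g` fibres of type `I₂` and a fibre of type `I₀*` at infinity, and its geometric genus
`(deg g - 1) / 2` is not bounded. The point `(c, √(c e) g)` is a section of infinite order.

Theorem. Every class in `V₂ Sel(E / F)` which is fixed by the Galois group of `k` comes from `E(K)`.

As `Br(X ⊗ k') = Ш(E / F)` up to `p`-torsion (Grothendieck), this is the Tate conjecture for
divisors on `X` at the prime 2.
-/

namespace Pool.Agent.Results.MP_97f789_ag.TateRankOneFamily

open Polynomial Pool.Agent.TH115.GD

theorem result {k k' K F : Type} [Field k] [Field k'] [Algebra k k'] [Field K] [Algebra k[X] K]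
    [Field F] [Algebra k'[X] F] [IsFractionRing k'[X] F] [Algebra K F] (hT : IsTower k k' K F)
    (h2 : (2 : k) ≠ 0) {c e m : k} (hm : m ≠ 0) (hce : c * e = m ^ 2) (he1 : e ≠ 1) {g : k[X]}
    (hg : Irreducible g) (hga : Irreducible (C c - g)) (hgb : Irreducible (C c - C e * g))
    (hsg : g.Separable) (hsa : (C c - g).Separable) (hsb : (C c - C e * g).Separable)
    (hodd : Odd g.natDegree) :
    TateAtTwo (F := F) k'
      (crv (algebraMap k[X] K (C c - g)) (algebraMap k[X] K (C c - C e * g))) :=
  rank1 hT h2 hm hce he1 hg hga hgb hsg hsa hsb hodd

end Pool.Agent.Results.MP_97f789_ag.TateRankOneFamily
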